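import Pool.Agent.helper95.RF.SpecC3

set_option autoImplicit false

/-!
# Row rg:GUB of MP_16912e_nt (bad tuples, the prime divides the norm of the modulus)
-/

namespace Pool.Agent.RF

open Finset NumberField Pool.Agent.helper3.FT
open scoped QuadraticAlgebra

/-- sizes of the quotient -/
lemma GUB_size (g M₂ : OO) (l : ℕ) (m : ℝ) (hl : 0 < l) (hn : g.norm.natAbs = l)
    (h1 : g.re ^ 2 ≤ l) (h2 : g.im ^ 2 ≤ l) (hm1 : |((g * M₂).re : ℝ)| ≤ m)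
    (hm2 : |((g * M₂).im : ℝ)| ≤ m) :
    |(M₂.re : ℝ)| ≤ 3 * m / √(l : ℝ) ∧ |(M₂.im : ℝ)| ≤ 3 * m / √(l : ℝ) := by
  obtain ⟨a, b⟩ := g
  obtain ⟨x, y⟩ := M₂
  have hN : (⟨a, b⟩ : OO).norm = a * a + a * b - b * b := by
    simp [QuadraticAlgebra.norm_def]
  rw [hN] at hn
  have e1 : ((⟨a, b⟩ : OO) * ⟨x, y⟩).re = a * x + b * y := by simp
  have e2 : ((⟨a, b⟩ : OO) * ⟨x, y⟩).im = a * y + b * x + b * y := by simp
  rw [e1] at hm1
  rw [e2] at hm2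
  simp only at h1 h2 ⊢
  have hm0 : 0 ≤ m := (abs_nonneg _).trans hm1
  have hlR : (0 : ℝ) < l := by exact_mod_cast hl
  have hs : 0 < √(l : ℝ) := Real.sqrt_pos.2 hlR
  have hss : √(l : ℝ) * √(l : ℝ) = l := Real.mul_self_sqrt hlR.le
  have ha : |(a : ℝ)| ≤ √(l : ℝ) := Real.abs_le_sqrt (by exact_mod_cast h1)
  have hb : |(b : ℝ)| ≤ √(l : ℝ) := Real.abs_le_sqrt (by exact_mod_cast h2)
  have hnR : |(a : ℝ) * a + a * b - b * b| = l := by
    have : ((a * a + a * b - b * b).natAbs : ℝ) = l := by exact_mod_cast hn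
    rw [← this, Nat.cast_natAbs]
    push_cast
    rfl
  push_cast at hm1 hm2
  have k1 : ((a : ℝ) * a + a * b - b * b) * x = (a + b) * (a * x + b * y) - b * (a * y + b * x + b * y) := by
    ring
  have k2 : ((a : ℝ) * a + a * b - b * b) * y = a * (a * y + b * x + b * y) - b * (a * x + b * y) := by
    ring
  have hab : |(a : ℝ) + b| ≤ 2 * √(l : ℝ) := (abs_add_le _ _).trans (by linarith)
  constructor
  · rw [le_div_iff₀ hs]
    have h3 : (l : ℝ) * |(x : ℝ)| ≤ 2 * √(l : ℝ) * m + √(l : ℝ) * m := by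
      have h30 : (l : ℝ) * |(x : ℝ)| = |((a : ℝ) * a + a * b - b * b) * x| := by
        rw [abs_mul, hnR]
      rw [h30, k1]
      refine (abs_sub _ _).trans ?_
      rw [abs_mul, abs_mul]
      exact add_le_add (mul_le_mul hab hm1 (abs_nonneg _) (by positivity))
        (mul_le_mul hb hm2 (abs_nonneg _) (by positivity))
    have h4 : √(l : ℝ) * (|(x : ℝ)| * √(l : ℝ)) ≤ √(l : ℝ) * (3 * m) := by
      have h5 : √(l : ℝ) * (|(x : ℝ)| * √(l : ℝ)) = l * |(x : ℝ)| := by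
        linear_combination |(x : ℝ)| * hss
      rw [h5]
      linarith
    exact le_of_mul_le_mul_left h4 hs
  · rw [le_div_iff₀ hs]
    have h3 : (l : ℝ) * |(y : ℝ)| ≤ √(l : ℝ) * m + √(l : ℝ) * m := by
      have h30 : (l : ℝ) * |(y : ℝ)| = |((a : ℝ) * a + a * b - b * b) * y| := by
        rw [abs_mul, hnR]
      rw [h30, k2]
      refine (abs_sub _ _).trans ?_
      rw [abs_mul, abs_mul]
      exact add_le_add (mul_le_mul ha hm2 (abs_nonneg _) (by positivity))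
        (mul_le_mul hb hm1 (abs_nonneg _) (by positivity))
    have h4 : √(l : ℝ) * (|(y : ℝ)| * √(l : ℝ)) ≤ √(l : ℝ) * (3 * m) := by
      have h5 : √(l : ℝ) * (|(y : ℝ)| * √(l : ℝ)) = l * |(y : ℝ)| := by
        linear_combination |(y : ℝ)| * hss
      rw [h5]
      have := mul_nonneg hs.le hm0
      linarith
    exact le_of_mul_le_mul_left h4 hs

/-- sizes of the divisor -/
lemma GUB_val (g : OO) (l : ℕ) (h1 : g.re ^ 2 ≤ l) (h2 : g.im ^ 2 ≤ l) :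
    |va g| ≤ 3 * √(l : ℝ) ∧ |vb g| ≤ 3 * √(l : ℝ) := by
  have ha : |(g.re : ℝ)| ≤ √(l : ℝ) := Real.abs_le_sqrt (by exact_mod_cast h1)
  have hb : |(g.im : ℝ)| ≤ √(l : ℝ) := Real.abs_le_sqrt (by exact_mod_cast h2)
  have hs : 0 ≤ √(l : ℝ) := Real.sqrt_nonneg _
  have h5 : √(5 : ℝ) ≤ 3 := by
    rw [Real.sqrt_le_left (by norm_num)]
    norm_num
  have h50 : 0 ≤ √(5 : ℝ) := Real.sqrt_nonneg _
  have f1 : |(1 + √(5 : ℝ)) / 2| ≤ 2 := by
    rw [abs_le]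
    constructor <;> linarith
  have f2 : |(1 - √(5 : ℝ)) / 2| ≤ 2 := by
    rw [abs_le]
    constructor <;> linarith
  constructor
  · unfold va
    refine (abs_add_le _ _).trans ?_
    rw [abs_mul]
    have := mul_le_mul hb f1 (abs_nonneg _) hs
    linarith
  · unfold vb
    refine (abs_add_le _ _).trans ?_
    rw [abs_mul]
    have := mul_le_mul hb f2 (abs_nonneg _) hs
    linarith

/-- the two divisors -/
lemma GUB_two (h6 : CTH_stmt) (l : ℕ) (hl : l.Prime) (h2 : l ≠ 2) (h5 : l ≠ 5) (k : OO)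
    (hk : (l : ℤ) ∣ k.norm) (hc : Nat.Coprime k.re.natAbs k.im.natAbs) :
    ∃ g₁ g₂ : OO, (g₁.norm.natAbs = l ∧ g₁.re ^ 2 ≤ l ∧ g₁.im ^ 2 ≤ l) ∧
      (g₂.norm.natAbs = l ∧ g₂.re ^ 2 ≤ l ∧ g₂.im ^ 2 ≤ l) ∧
      ∀ M : OO, (l : ℤ) ∣ M.norm → g₁ ∣ M ∨ g₂ ∣ M := by
  obtain ⟨c1, c2, c3⟩ := h6
  have hmod : l % 5 = 1 ∨ l % 5 = 4 := by
    by_contra hno
    push Not at hno
    have h0 : l % 5 ≠ 0 := by
      intro h0
      have : 5 ∣ l := Nat.dvd_of_mod_eq_zero h0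
      exact h5 ((Nat.prime_dvd_prime_iff_eq (by norm_num) hl).1 this).symm
    have h23 : l % 5 = 2 ∨ l % 5 = 3 := by omega
    obtain ⟨z, hz⟩ := c3 l hl h2 h23 k hk
    have hz1 : k.re = l * z.re := by
      rw [hz]
      simp [QuadraticAlgebra.re_natCast, QuadraticAlgebra.im_natCast]
    have hz2 : k.im = l * z.im := by
      rw [hz]
      simp [QuadraticAlgebra.re_natCast, QuadraticAlgebra.im_natCast]
    have d1 : l ∣ k.re.natAbs := by
      rw [hz1, Int.natAbs_mul, Int.natAbs_natCast]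
      exact dvd_mul_right _ _
    have d2 : l ∣ k.im.natAbs := by
      rw [hz2, Int.natAbs_mul, Int.natAbs_natCast]
      exact dvd_mul_right _ _
    have := Nat.dvd_gcd d1 d2
    rw [hc] at this
    exact hl.one_lt.ne' (Nat.dvd_one.1 this)
  obtain ⟨r, hr⟩ := c2 l hl hmod
  obtain ⟨g₁, a1, a2, a3, a4⟩ := c1 l r hl h5 hr
  have hr' : (l : ℤ) ∣ (1 - r) ^ 2 - (1 - r) - 1 := by
    have : (1 - r) ^ 2 - (1 - r) - 1 = r ^ 2 - r - 1 := by ring
    rw [this]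
    exact hr
  obtain ⟨g₂, b1, b2, b3, b4⟩ := c1 l (1 - r) hl h5 hr'
  refine ⟨g₁, g₂, ⟨a1, a2, a3⟩, ⟨b1, b2, b3⟩, fun M hM => ?_⟩
  rw [a4, b4]
  have hp : Prime (l : ℤ) := Nat.prime_iff_prime_int.1 hl
  apply hp.dvd_or_dvd
  have hN : M.norm = M.re * M.re + M.re * M.im - M.im * M.im := by
    simp [QuadraticAlgebra.norm_def]
  have : (M.re + r * M.im) * (M.re + (1 - r) * M.im) = M.norm - (r ^ 2 - r - 1) * M.im ^ 2 := by
    rw [hN]
    ring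
  rw [this]
  exact dvd_sub hM (Dvd.dvd.mul_right hr _)

theorem GUB (h1 : NKB_stmt) (h2 : GPU_stmt) (h3 : GKT_stmt) (h4 : GKN_stmt) (h5 : GSU_stmt) (h6 : CTH_stmt) : GUB_stmt := by
  classical
  obtain ⟨Cn, hCn, h1⟩ := h1
  obtain ⟨Cg, hCg, h2⟩ := h2
  obtain ⟨c4, C4, hc4, hC4, h4⟩ := h4
  obtain ⟨C5, hC5, h5⟩ := h5
  have hmul : ∀ x y : ℝ, 1 ≤ x → 1 ≤ y → 1 ≤ x * y := fun x y hx hy => by nlinarith
  refine ⟨2 * (Cg * (C4 * C5)), ?_, fun P hP hP10 => ?_⟩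
  · have := hmul _ _ hCg (hmul _ _ hC4 hC5)
    linarith
  obtain ⟨D5, hD5, h5⟩ := h5 P hP
  obtain ⟨X4, h4⟩ := h4 (10 * P) (by omega)
  refine ⟨2 * (Cg * (Cn * D5)), ?_, fun ρ hρ => ?_⟩
  · have := hmul _ _ hCg (hmul _ _ hCn hD5)
    linarith
  obtain ⟨N₀, h5⟩ := h5 ρ hρ (max (max 100 X4) (((10 * P : ℕ) : ℝ) * ρ))
  refine ⟨N₀, fun N X hN hX hXN l hl hl10 hlρ M₀ s₀ F hF => ?_⟩
  obtain ⟨hN1, hX0, h5⟩ := h5 N X hN hX hXN
  have hX100 : 100 ≤ X := (le_max_left _ _).trans ((le_max_left _ _).trans hX0)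
  have hX4 : X4 ≤ X := (le_max_right _ _).trans ((le_max_left _ _).trans hX0)
  have hXρ : ((10 * P : ℕ) : ℝ) * ρ ≤ X := (le_max_right _ _).trans hX0
  obtain ⟨-, -, B, T, R, hB, hT, q1, q2, q3, q4, q5⟩ := h5 l hl.one_lt.le hlρ
  obtain ⟨k1, k2⟩ := h3 X (10 * P) hX100 (Dvd.intro _ rfl)
  obtain ⟨-, -, h4⟩ := h4 X hX4
  have hl2 : l ≠ 2 := by
    rintro rfl
    have h : Nat.Coprime 2 (10 * P) := hl10
    have h' : 2 ∣ 10 * P := ⟨5 * P, by ring⟩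
    have := Nat.Coprime.eq_one_of_dvd h h'
    omega
  have hl5 : l ≠ 5 := by
    rintro rfl
    have h : Nat.Coprime 5 (10 * P) := hl10
    have h' : 5 ∣ 10 * P := ⟨2 * P, by ring⟩
    have := Nat.Coprime.eq_one_of_dvd h h'
    omega
  have hlR : (0 : ℝ) < l := by exact_mod_cast hl.pos
  have hρ0 : 0 < ρ := by linarith
  have hTR : (0 : ℝ) < T := by exact_mod_cast hT
  set Y : ℝ := ρ ^ (-(2 / 3) : ℝ) * N with hY
  set Z : ℝ := (l : ℝ) ^ (1 / 4 : ℝ) * (1 + l * ρ ^ (-(2 / 3) : ℝ)) with hZ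
  have hPR : (0 : ℝ) < P := by exact_mod_cast hP
  have hE : 1 ≤ 16 * 5 ^ 6 * P := by omega
  have hY0 : 0 ≤ Y := by
    rw [hY]
    have : 0 ≤ ρ ^ (-(2 / 3) : ℝ) := Real.rpow_nonneg hρ0.le _
    exact mul_nonneg this (by linarith)
  have hZ0 : 0 ≤ Z := by
    rw [hZ]
    have h1 : 0 ≤ ρ ^ (-(2 / 3) : ℝ) := Real.rpow_nonneg hρ0.le _
    have h2 : 0 ≤ (l : ℝ) ^ (1 / 4 : ℝ) := Real.rpow_nonneg hlR.le _
    positivity
  have hcopE : ∀ n : ℕ, Nat.Coprime n (10 * P) → Nat.Coprime n (16 * 5 ^ 6 * P) := by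
    intro n hn
    have n10 : Nat.Coprime n 10 := hn.coprime_mul_right_right
    have nP : Nat.Coprime n P := hn.coprime_mul_left_right
    have n2 : Nat.Coprime n 2 := n10.coprime_dvd_right (by norm_num)
    have n5 : Nat.Coprime n 5 := n10.coprime_dvd_right (by norm_num)
    exact Nat.Coprime.mul_right (Nat.Coprime.mul_right (n2.pow_right 4) (n5.pow_right 6)) nP
  -- one divisor
  have key : ∀ g : OO, g.norm.natAbs = l → g.re ^ 2 ≤ l → g.im ^ 2 ≤ l →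
      ∀ G : Finset (OO × OO × ℤ), (∀ t ∈ G, TP P N X M₀ s₀ t ∧ g ∣ t.2.1 ∧ (l : ℤ) ∣ t.1.norm) →
      (G.card : ℝ) ≤ Cg * (C4 * C5 / ((l : ℝ) ^ 2 * (P : ℝ) ^ 5) * Y + Cn * (D5 / ρ * Z) * Y) := by
    intro g hgn hg1 hg2 G hG
    have hgv := GUB_val g l hg1 hg2
    set W := (KT X (10 * P)).filter (fun k => (l : ℤ) ∣ k.norm) with hW
    have hWk : ∀ k ∈ W, k ∈ KT X (10 * P) ∧ (l : ℤ) ∣ k.norm := fun k hk => by
      rw [hW, mem_filter] at hk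
      exact hk
    have hq : ∀ t : OO × OO × ℤ, ∃ m : OO, g ∣ t.2.1 → t.2.1 = g * m := by
      intro t
      by_cases h : g ∣ t.2.1
      · obtain ⟨m, hm⟩ := h
        exact ⟨m, fun _ => hm⟩
      · exact ⟨0, fun h' => absurd h' h⟩
    choose qf hqf using hq
    have ha : ∀ k : OO, ∃ a : ℤ × ℤ × ℤ, k ∈ W → (RM k g 1 a ∧ ∀ (B T : ℕ) (z₀ V : ℝ)
        (F : Finset (OO × ℤ)), 1 ≤ B → 1 ≤ T → 0 < V →
      4 * T * V ≤ ((16 * 5 ^ 6 * P : ℕ) : ℝ) * (k.norm.natAbs : ℝ) ^ 3 →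
      (∀ t ∈ F, CG k (g * t.1) (1 * t.2) ∧ ((16 * 5 ^ 6 * P : ℕ) : OO) ∣ g * t.1 - M₀ k ∧
        ((16 * 5 ^ 6 * P : ℕ) : ℤ) ∣ 1 * t.2 - s₀ k ∧
        |(t.1.re : ℝ)| + ((16 * 5 ^ 6 * P : ℕ) : ℝ) ≤ ((16 * 5 ^ 6 * P : ℕ) : ℝ) * B ∧
        |(t.1.im : ℝ)| + ((16 * 5 ^ 6 * P : ℕ) : ℝ) ≤ ((16 * 5 ^ 6 * P : ℕ) : ℝ) * B ∧
        z₀ ≤ t.2 ∧ (t.2 : ℝ) ≤ z₀ + V) →
      (F.card : ℝ) ≤ Cg / T * ((B : ℝ) ^ 2 + B * NK B T (16 * 5 ^ 6 * P) k a)) := by
      intro k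
      by_cases hk : k ∈ W
      · obtain ⟨hk1, hk2⟩ := hWk k hk
        obtain ⟨hKG, hcop, -, -, -⟩ := k1 k hk1
        obtain ⟨a, ha1, ha2⟩ := h2 (16 * 5 ^ 6 * P) 1 k g (M₀ k) (s₀ k) hE hKG.cp
          (Nat.Coprime.mul_right hKG.q10 (hcopE _ hcop)) (by simp)
          (by rw [hgn]; exact hcopE _ hl10)
        exact ⟨a, fun _ => ⟨ha1, ha2⟩⟩
      · exact ⟨(0, 0, 0), fun h => absurd h hk⟩
    choose af haf using ha
    have hSZ : 0 < SZ N X := by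
      unfold SZ
      exact Real.rpow_pos_of_pos (by positivity) _
    -- one k
    have hone : ∀ k ∈ W, ((G.filter (fun t => t.1 = k)).card : ℝ) ≤
        Cg / T * ((B : ℝ) ^ 2 + B * NK B T (16 * 5 ^ 6 * P) k (af k)) := by
      intro k hk
      obtain ⟨hk1, hk2⟩ := hWk k hk
      obtain ⟨hKG, hcop, -, hXq, -⟩ := k1 k hk1
      have hinj : Set.InjOn (fun t : OO × OO × ℤ => (qf t, t.2.2)) (G.filter (fun t => t.1 = k)) := by
        intro t ht t' ht' he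
        rw [mem_coe, mem_filter] at ht ht'
        obtain ⟨he1, he2⟩ := Prod.mk.inj he
        have e1 := hqf t (hG t ht.1).2.1
        have e2 := hqf t' (hG t' ht'.1).2.1
        refine Prod.ext (ht.2.trans ht'.2.symm) (Prod.ext ?_ he2)
        rw [e1, e2, he1]
      rw [← card_image_of_injOn hinj]
      refine (haf k hk).2 B T (SZ N X / 2) (SZ N X / 2) _ hB hT (by positivity) ?_ ?_
      · refine q2.trans ?_
        exact mul_le_mul_of_nonneg_left (pow_le_pow_left₀ (by positivity) hXq 3) (by positivity)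
      · intro u hu
        rw [mem_image] at hu
        obtain ⟨t, ht, rfl⟩ := hu
        rw [mem_filter] at ht
        obtain ⟨ht, htk⟩ := ht
        obtain ⟨hTP, hgd, -⟩ := hG t ht
        have e1 := hqf t hgd
        have hsz := GUB_size g (qf t) l (√(SZ N X) / 100) hl.pos hgn hg1 hg2
          (by rw [← e1]; exact hTP.m1) (by rw [← e1]; exact hTP.m2)
        have hs0 : 0 < √(l : ℝ) := Real.sqrt_pos.2 hlR
        have hle : 3 * (√(SZ N X) / 100) / √(l : ℝ) ≤ 7 * √(SZ N X) / (100 * √(l : ℝ)) := by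
          rw [div_le_div_iff₀ hs0 (by positivity)]
          have : 0 ≤ √(SZ N X) * √(l : ℝ) := by positivity
          linarith
        simp only [one_mul]
        rw [← e1, ← htk]
        refine ⟨hTP.cg, hTP.cm, hTP.cs, ?_, ?_, hTP.s1.le, ?_⟩
        · exact (add_le_add (hsz.1.trans hle) le_rfl).trans q1
        · exact (add_le_add (hsz.2.trans hle) le_rfl).trans q1
        · linarith [hTP.s2]
    have hmap : ∀ t ∈ G, t.1 ∈ W := by
      intro t ht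
      rw [hW, mem_filter]
      exact ⟨(hG t ht).1.kk, (hG t ht).2.2⟩
    have hcard : (G.card : ℝ) = ∑ k ∈ W, ((G.filter (fun t => t.1 = k)).card : ℝ) := by
      rw [card_eq_sum_card_fiberwise (f := fun t : OO × OO × ℤ => t.1) (t := W) hmap]
      push_cast
      rfl
    have hsumNK := h1 ⌊X ^ 2⌋₊ B T (16 * 5 ^ 6 * P) l R g W af
      (by
        rw [Nat.one_le_floor_iff]
        nlinarith) hB hT hE hl hgn hgv.1 hgv.2 q3
      (fun k hk => ⟨(k1 k (hWk k hk).1).1, (hWk k hk).2, (haf k hk).1⟩)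
      (fun k hk k₁ hk₁ => k2 k (hWk k hk).1 k₁ (hWk k₁ hk₁).1)
    have hWc : (W.card : ℝ) ≤ C4 * X ^ 2 / (((10 * P : ℕ) : ℝ) ^ 2 * l) := by
      refine h4 l hl hl10 ?_
      refine le_trans ?_ hXρ
      exact mul_le_mul_of_nonneg_left hlρ (by positivity)
    have hBT : (0 : ℝ) ≤ (B : ℝ) ^ 2 / T := by positivity
    have hBT' : (0 : ℝ) ≤ (B : ℝ) / T := by positivity
    calc (G.card : ℝ) ≤ ∑ k ∈ W, Cg / T * ((B : ℝ) ^ 2 + B * NK B T (16 * 5 ^ 6 * P) k (af k)) := by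
          rw [hcard]
          exact sum_le_sum hone
      _ = Cg * (W.card * ((B : ℝ) ^ 2 / T) +
            (B : ℝ) / T * ∑ k ∈ W, NK B T (16 * 5 ^ 6 * P) k (af k)) := by
          rw [← mul_sum, sum_add_distrib, sum_const, nsmul_eq_mul, ← mul_sum]
          ring
      _ ≤ Cg * (C4 * C5 / ((l : ℝ) ^ 2 * (P : ℝ) ^ 5) * Y + Cn * (D5 / ρ * Z) * Y) := by
          refine mul_le_mul_of_nonneg_left (add_le_add ?_ ?_) (by linarith)
          · calc (W.card : ℝ) * ((B : ℝ) ^ 2 / T)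
                ≤ C4 * X ^ 2 / (((10 * P : ℕ) : ℝ) ^ 2 * l) * ((B : ℝ) ^ 2 / T) :=
                  mul_le_mul_of_nonneg_right hWc hBT
              _ = C4 * (X ^ 2 / (((10 * P : ℕ) : ℝ) ^ 2 * l) * ((B : ℝ) ^ 2 / T)) := by ring
              _ ≤ C4 * (C5 / ((l : ℝ) ^ 2 * (P : ℝ) ^ 5) * Y) :=
                  mul_le_mul_of_nonneg_left q4 (by linarith)
              _ = C4 * C5 / ((l : ℝ) ^ 2 * (P : ℝ) ^ 5) * Y := by ring
          · calc (B : ℝ) / T * ∑ k ∈ W, NK B T (16 * 5 ^ 6 * P) k (af k)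
                ≤ (B : ℝ) / T * (Cn * (T * (⌊X ^ 2⌋₊ : ℝ) / l + R ^ (3 / 2 : ℝ) *
                    ((T : ℝ) ^ (5 / 4 : ℝ) + (⌊X ^ 2⌋₊ : ℝ) * (T : ℝ) ^ (1 / 4 : ℝ) / l))) :=
                  mul_le_mul_of_nonneg_left hsumNK hBT'
              _ = Cn * ((B : ℝ) / T * (T * (⌊X ^ 2⌋₊ : ℝ) / l + R ^ (3 / 2 : ℝ) *
                    ((T : ℝ) ^ (5 / 4 : ℝ) + (⌊X ^ 2⌋₊ : ℝ) * (T : ℝ) ^ (1 / 4 : ℝ) / l))) := by ring
              _ ≤ Cn * (D5 / ρ * Z * Y) := mul_le_mul_of_nonneg_left q5 (by linarith)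
              _ = Cn * (D5 / ρ * Z) * Y := by ring
  -- the two divisors
  have hbnd : 0 ≤ Cg * (C4 * C5 / ((l : ℝ) ^ 2 * (P : ℝ) ^ 5) * Y + Cn * (D5 / ρ * Z) * Y) := by
    positivity
  have hfin : (F.card : ℝ) ≤
      2 * (Cg * (C4 * C5 / ((l : ℝ) ^ 2 * (P : ℝ) ^ 5) * Y + Cn * (D5 / ρ * Z) * Y)) := by
    rcases F.eq_empty_or_nonempty with rfl | ⟨t₀, ht₀⟩
    · rw [card_empty, Nat.cast_zero]
      linarith
    · obtain ⟨hTP₀, -, hlk₀⟩ := hF t₀ ht₀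
      have hcop : Nat.Coprime t₀.1.re.natAbs t₀.1.im.natAbs := by
        have := hTP₀.kk
        unfold KT at this
        rw [mem_image] at this
        obtain ⟨p, hp, hpe⟩ := this
        rw [mem_filter] at hp
        rw [← hpe]
        simpa using hp.2.2.2.2.2.1
      obtain ⟨g₁, g₂, ⟨a1, a2, a3⟩, ⟨b1, b2, b3⟩, hor⟩ := GUB_two h6 l hl hl2 hl5 t₀.1 hlk₀ hcop
      have hU : F ⊆ F.filter (fun t => g₁ ∣ t.2.1) ∪ F.filter (fun t => g₂ ∣ t.2.1) := by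
        intro t ht
        rw [mem_union, mem_filter, mem_filter]
        rcases hor t.2.1 (hF t ht).2.1 with h | h
        · exact Or.inl ⟨ht, h⟩
        · exact Or.inr ⟨ht, h⟩
      have hc : (F.card : ℝ) ≤ (F.filter (fun t => g₁ ∣ t.2.1)).card +
          (F.filter (fun t => g₂ ∣ t.2.1)).card := by
        exact_mod_cast (card_le_card hU).trans (card_union_le _ _)
      have d1 := key g₁ a1 a2 a3 (F.filter (fun t => g₁ ∣ t.2.1)) (fun t ht => by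
        rw [mem_filter] at ht
        exact ⟨(hF t ht.1).1, ht.2, (hF t ht.1).2.2⟩)
      have d2 := key g₂ b1 b2 b3 (F.filter (fun t => g₂ ∣ t.2.1)) (fun t ht => by
        rw [mem_filter] at ht
        exact ⟨(hF t ht.1).1, ht.2, (hF t ht.1).2.2⟩)
      linarith
  refine hfin.trans (le_of_eq ?_)
  ring

end Pool.Agent.RF
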