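import Mathlib
import Pool.Agent.helper67.RG.Spec

/-!
# Row QUO: the representation on a factor in matrix form
-/

namespace Pool.Agent.RG.QUO

open Matrix Pool.Agent.GO Pool.Agent.AR

theorem QUO : QUO_stmt := by
  intro F Γ m _ _ _ _ V A B hAB hA hB
  classical
  -- the quotient and its coordinates
  set Q := B ⧸ A.submoduleOf B with hQ
  let b := Module.finBasis F Q
  let π : B →ₗ[F] (Fin (Module.finrank F Q) → F) :=
    b.equivFun.toLinearMap ∘ₗ (A.submoduleOf B).mkQ
  have hπs : Function.Surjective π :=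
    b.equivFun.surjective.comp (Submodule.mkQ_surjective _)
  have hπk : ∀ x : B, π x = 0 ↔ x.1 ∈ A := by
    intro x
    show b.equivFun ((A.submoduleOf B).mkQ x) = 0 ↔ x.1 ∈ A
    rw [LinearEquiv.map_eq_zero_iff, Submodule.mkQ_apply, Submodule.Quotient.mk_eq_zero]
    rfl
  obtain ⟨s, hs⟩ := π.exists_rightInverse_of_surjective (LinearMap.range_eq_top.2 hπs)
  have hs' : ∀ v, π (s v) = v := fun v => LinearMap.congr_fun hs v
  -- the restriction of `V g` to `B`
  let R : Γ → (B →ₗ[F] B) := fun g =>
    ((V g).mulVecLin).restrict (fun x hx => by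
      rw [Matrix.mulVecLin_apply]; exact hB g x hx)
  have hR : ∀ g (x : B), (R g x).1 = V g *ᵥ x.1 := fun g x => rfl
  have hRmul : ∀ g h (x : B), R (g * h) x = R g (R h x) := by
    intro g h x
    apply Subtype.ext
    rw [hR, hR, hR, map_mul, Matrix.mulVec_mulVec]
  have hRone : ∀ x : B, R 1 x = x := by
    intro x
    apply Subtype.ext
    rw [hR, map_one, Matrix.one_mulVec]
  have key : ∀ g (x : B), π (R g x) = π (R g (s (π x))) := by
    intro g x
    have h1 : π (R g (x - s (π x))) = 0 := by
      rw [hπk, hR]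
      apply hA g
      rw [← hπk, map_sub, hs', sub_self]
    rw [map_sub, map_sub, sub_eq_zero] at h1
    exact h1
  let M : Γ → Matrix (Fin (Module.finrank F Q)) (Fin (Module.finrank F Q)) F := fun g =>
    LinearMap.toMatrix' (π ∘ₗ R g ∘ₗ s)
  have hM : ∀ g v, M g *ᵥ v = π (R g (s v)) := by
    intro g v
    show LinearMap.toMatrix' (π ∘ₗ R g ∘ₗ s) *ᵥ v = _
    rw [LinearMap.toMatrix'_mulVec]
    rfl
  have hM' : ∀ g x, π (R g x) = M g *ᵥ π x := by
    intro g x
    rw [hM, key]
  let W : Γ →* Matrix (Fin (Module.finrank F Q)) (Fin (Module.finrank F Q)) F :=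
    { toFun := M
      map_one' := by
        apply Matrix.ext_of_mulVec_single
        intro j
        rw [hM, hRone, hs', Matrix.one_mulVec]
      map_mul' := by
        intro g h
        apply Matrix.ext_of_mulVec_single
        intro j
        rw [hM, hRmul, hM', hM', hs', Matrix.mulVec_mulVec] }
  have hW : ∀ g, W g = M g := fun g => rfl
  refine ⟨Module.finrank F Q, W, π, ⟨hAB, hπs, hπk, ?_⟩, ?_, ?_⟩
  · intro g x y hxy
    have : y = R g x := Subtype.ext (by rw [hxy, hR])
    rw [this, hM', hW]
  · intro hlt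
    by_contra h0
    have h0' : Module.finrank F Q = 0 := by omega
    obtain ⟨x, hxB, hxA⟩ := SetLike.exists_of_lt hlt
    apply hxA
    rw [← hπk ⟨x, hxB⟩]
    funext i
    exact absurd i.2 (by omega)
  · intro i j
    obtain ⟨l, hl⟩ := LinearMap.exists_extend ((LinearMap.proj i : _ →ₗ[F] F) ∘ₗ π)
    have hl' : ∀ x : B, l x.1 = π x i := fun x => LinearMap.congr_fun hl x
    set x := s (Pi.single j 1) with hx
    have h1 : ∀ g, W g i j = ∑ k, l (Pi.single k 1) * ∑ k', x.1 k' * V g k k' := by
      intro g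
      have h2 : W g i j = (M g *ᵥ Pi.single j 1) i := by
        rw [hW, Matrix.mulVec_single_one]
        rfl
      rw [h2, hM, ← hl', hR, ← hx]
      have h3 : V g *ᵥ x.1 = ∑ k, (∑ k', x.1 k' * V g k k') • (Pi.single k (1 : F)) := by
        ext k
        rw [Finset.sum_apply, Finset.sum_eq_single k]
        · rw [Pi.smul_apply, Pi.single_eq_same, smul_eq_mul, mul_one]
          exact Finset.sum_congr rfl fun _ _ => mul_comm _ _
        · intro k' _ hk'
          rw [Pi.smul_apply, Pi.single_eq_of_ne (Ne.symm hk'), smul_zero]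
        · intro hk; exact absurd (Finset.mem_univ k) hk
      rw [h3, map_sum]
      refine Finset.sum_congr rfl fun k _ => ?_
      rw [map_smul, smul_eq_mul, mul_comm]
    have h4 : (fun g => W g i j) = fun g => ∑ k, l (Pi.single k 1) * ∑ k', x.1 k' * V g k k' :=
      funext h1
    rw [h4]
    exact sum_mem_fun _ _ (fun k g => ∑ k', x.1 k' * V g k k') fun k _ =>
      sum_mem_fun _ _ (fun k' g => V g k k') fun k' _ => coef_mem V k k'

end Pool.Agent.RG.QUO
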